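import Mathlib
import Pool.Agent.P.MP_e00059_co.QL
import Pool.Agent.P.MP_e00059_co.QU

/-! The discrepancy of `n` points in dimension `d ≥ 3` with respect to axis-parallel boxes has
order `(log n)^(d - 1/2)`. -/

namespace Pool.Agent.Results.MP_e00059_co.HigherOrder

open Classical in
theorem result : ∀ d : ℕ, 3 ≤ d → ∃ c C : ℝ, 0 < c ∧ 0 < C ∧ ∀ n : ℕ, 2 ≤ n →
    (∃ P : Finset (Fin d → ℝ), P.card = n ∧ ∀ χ : (Fin d → ℝ) → ℝ, (∀ p, χ p = 1 ∨ χ p = -1) →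
      ∃ a b : Fin d → ℝ, (∀ i, a i ≤ b i) ∧ c * Real.log n ^ ((d : ℝ) - 1 / 2) ≤
        |∑ p ∈ P with ∀ i, a i ≤ p i ∧ p i ≤ b i, χ p|) ∧
    (∀ P : Finset (Fin d → ℝ), P.card = n → ∃ χ : (Fin d → ℝ) → ℝ, (∀ p, χ p = 1 ∨ χ p = -1) ∧
      ∀ a b : Fin d → ℝ, (∀ i, a i ≤ b i) →
        |∑ p ∈ P with ∀ i, a i ≤ p i ∧ p i ≤ b i, χ p| ≤
          C * Real.log n ^ ((d : ℝ) - 1 / 2)) := by
  intro d hd
  obtain ⟨e, rfl⟩ : ∃ e, d = e + 1 + 1 := ⟨d - 2, by omega⟩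
  obtain ⟨c, hc, h1⟩ := Pool.Agent.P.MP_e00059_co.HD.lowerD e
  obtain ⟨C, hC, h2⟩ := Pool.Agent.P.MP_e00059_co.HD.upperD (e + 1)
  have e1 : ((e + 1 + 1 : ℕ) : ℝ) - 1 / 2 = (e : ℝ) + 3 / 2 := by push_cast; ring
  have e2 : ((e + 1 : ℕ) : ℝ) + 1 / 2 = (e : ℝ) + 3 / 2 := by push_cast; ring
  rw [e2] at h2
  rw [e1]
  refine ⟨c, C, hc, hC, fun n hn => ⟨h1 n hn, fun P hP => ?_⟩⟩
  obtain ⟨χ, g1, g2⟩ := h2 n hn P hP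
  exact ⟨χ, g1, fun a b _ => g2 a b⟩

end Pool.Agent.Results.MP_e00059_co.HigherOrder
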