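import Mathlib
import Pool.Agent.P.MP_e00059_co.LowerA
import Pool.Agent.P.MP_e00059_co.Upper

/-! The discrepancy of `n` points in the plane with respect to axis-parallel rectangles has order
`(log n)^(3/2)`. -/

namespace Pool.Agent.Results.MP_e00059_co.PlaneOrder

open Classical in
theorem result : ∃ c C : ℝ, 0 < c ∧ 0 < C ∧ ∀ n : ℕ, 2 ≤ n →
    (∃ P : Finset (ℝ × ℝ), P.card = n ∧ ∀ χ : ℝ × ℝ → ℝ, (∀ p, χ p = 1 ∨ χ p = -1) →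
      ∃ a₁ b₁ a₂ b₂ : ℝ, a₁ ≤ b₁ ∧ a₂ ≤ b₂ ∧ c * Real.log n ^ (3 / 2 : ℝ) ≤
        |∑ p ∈ P with (a₁ ≤ p.1 ∧ p.1 ≤ b₁) ∧ (a₂ ≤ p.2 ∧ p.2 ≤ b₂), χ p|) ∧
    (∀ P : Finset (ℝ × ℝ), P.card = n → ∃ χ : ℝ × ℝ → ℝ, (∀ p, χ p = 1 ∨ χ p = -1) ∧
      ∀ a₁ b₁ a₂ b₂ : ℝ, a₁ ≤ b₁ → a₂ ≤ b₂ →
        |∑ p ∈ P with (a₁ ≤ p.1 ∧ p.1 ≤ b₁) ∧ (a₂ ≤ p.2 ∧ p.2 ≤ b₂), χ p| ≤
          C * Real.log n ^ (3 / 2 : ℝ)) := by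
  obtain ⟨c, hc, h1⟩ := Pool.Agent.P.MP_e00059_co.L43.lower
  obtain ⟨C, hC, h2⟩ := Pool.Agent.P.MP_e00059_co.upper
  refine ⟨c, C, hc, hC, fun n hn => ⟨h1 n hn, fun P hP => ?_⟩⟩
  obtain ⟨χ, g1, g2⟩ := h2 n hn P hP
  exact ⟨χ, g1, fun a₁ b₁ a₂ b₂ _ _ => g2 a₁ b₁ a₂ b₂⟩

end Pool.Agent.Results.MP_e00059_co.PlaneOrder
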