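import Mathlib
import Pool.Agent.P.MP_e00059_co.RD

/-! Independent uniform points of the unit square have discrepancy of order at least
`(log n)^(3/2)` for anchored rectangles, against all weights in `[-1,1]` of mean square at least
`δ`, outside a set of exponentially small measure. -/

namespace Pool.Agent.Results.MP_e00059_co.RandomPoints

open Classical in
theorem result : ∀ δ : ℝ, 0 < δ → ∃ c : ℝ, 0 < c ∧ ∃ n₀ : ℕ, ∀ n : ℕ, n₀ ≤ n →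
    MeasureTheory.volume {x : Fin n → ℝ × ℝ |
      (∀ i, x i ∈ Set.Icc (0 : ℝ) 1 ×ˢ Set.Icc (0 : ℝ) 1) ∧
      ∃ χ : Fin n → ℝ, (∀ i, |χ i| ≤ 1) ∧ δ * n ≤ ∑ i, χ i ^ 2 ∧
        ∀ b₁ b₂ : ℝ, 0 ≤ b₁ → 0 ≤ b₂ →
          |∑ i with (0 ≤ (x i).1 ∧ (x i).1 ≤ b₁) ∧ (0 ≤ (x i).2 ∧ (x i).2 ≤ b₂), χ i| ≤
            c * Real.log n ^ (3 / 2 : ℝ)} ≤ ENNReal.ofReal (2 * Real.exp (-(c * n))) := by
  intro δ hδ
  obtain ⟨c, hc, n₀, h⟩ := Pool.Agent.P.MP_e00059_co.L43.random_lower (min δ 1)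
    (lt_min hδ one_pos) (min_le_right _ _)
  refine ⟨c, hc, n₀, fun n hn => le_trans (MeasureTheory.measure_mono ?_) (h n hn)⟩
  rintro x ⟨hx, χ, h1, h2, h3⟩
  exact ⟨hx, χ, ⟨h1, (mul_le_mul_of_nonneg_right (min_le_left _ _) (Nat.cast_nonneg n)).trans h2⟩,
    h3⟩

end Pool.Agent.Results.MP_e00059_co.RandomPoints
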